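import Pool.Agent.H7.FldimUpper

set_option autoImplicit false

namespace Pool.Agent.Results.MP_5b7fe5_co.Sandwich

open Pool.Agent.H7.Fldim

/-- Fractional local `t`-dimension of the chain with `n` elements. -/
noncomputable def fldim (t n : ℕ) : ℝ :=
  sInf {c : ℝ | ∃ w : PF n t → ℝ, IsRealiser w ∧ ∀ x, localWeight w x ≤ c}

theorem result (t n : ℕ) (ht : 2 ≤ t) (hn : 1 ≤ n) :
    Real.logb t n ≤ fldim t n ∧ fldim t n ≤ Nat.clog t n ∧
      ∀ k : ℕ, n = t ^ k → fldim t n = k := by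
  have hu := upper (m := n) ht (Nat.clog t n) (Nat.le_pow_clog (by omega) n)
  have hl : ∀ c ∈ {c : ℝ | ∃ w : PF n t → ℝ, IsRealiser w ∧ ∀ x, localWeight w x ≤ c},
      Real.logb t n ≤ c := by
    rintro c ⟨w, hw, hc⟩
    obtain ⟨x, hx⟩ := lower ht hn w hw
    exact hx.trans (hc x)
  have h1 : Real.logb t n ≤ fldim t n := le_csInf ⟨_, hu⟩ hl
  have h2 : fldim t n ≤ Nat.clog t n := csInf_le ⟨_, hl⟩ hu
  refine ⟨h1, h2, ?_⟩
  rintro k rfl
  rw [Nat.clog_pow _ _ (by omega)] at h2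
  rw [Nat.cast_pow, Real.logb_pow, Real.logb_self_eq_one (by exact_mod_cast ht), mul_one] at h1
  exact le_antisymm h2 h1

end Pool.Agent.Results.MP_5b7fe5_co.Sandwich
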